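import Mathlib

/-!
# The loneliness gap can drop from its largest to its smallest conjectured value

For every `n ≥ 2` and every `a ≥ 1` the `n`-set `V = {a, 3 a, …, (2 n - 1) a}` has `κ(V) = 1 / 2`,
the largest value a loneliness gap can take, while `a + V = {2 a, 4 a, …, 2 n a}` has
`κ(a + V) = 1 / (n + 1)`. So `κ(a + V) ≥ κ(V)` is false.
-/

set_option autoImplicit false

namespace Pool.Agent.Results.MP_64d5df_nt.GapDropsUnderTranslation

/-- The loneliness gap of a finite set of speeds: the supremum over all real `t` of the minimum over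
`v ∈ V` of the distance of `t v` to the nearest integer. -/
noncomputable def gap (V : Finset ℕ) : ℝ :=
  ⨆ t : ℝ, ⨅ v : V, |t * (v : ℕ) - round (t * (v : ℕ))|

/-- The translate `a + V`. -/
def translate (a : ℕ) (V : Finset ℕ) : Finset ℕ := V.image (fun v => a + v)

/-- `V` is a set of `n` positive integers. -/
def IsSpeeds (n : ℕ) (V : Finset ℕ) : Prop := V.card = n ∧ ∀ v ∈ V, 0 < v

theorem bdd (V : Finset ℕ) (t : ℝ) :
    BddBelow (Set.range fun v : V => |t * (v : ℕ) - round (t * (v : ℕ))|) :=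
  ⟨0, by rintro _ ⟨v, rfl⟩; exact abs_nonneg _⟩

theorem inf_le {V : Finset ℕ} (t : ℝ) {v : ℕ} (hv : v ∈ V) :
    (⨅ v : V, |t * (v : ℕ) - round (t * (v : ℕ))|) ≤ |t * v - round (t * v)| :=
  ciInf_le (bdd V t) ⟨v, hv⟩

theorem bddA {V : Finset ℕ} (hV : V.Nonempty) :
    BddAbove (Set.range fun t : ℝ => ⨅ v : V, |t * (v : ℕ) - round (t * (v : ℕ))|) := by
  obtain ⟨v, hv⟩ := hV
  refine ⟨1 / 2, ?_⟩
  rintro _ ⟨t, rfl⟩
  exact (inf_le t hv).trans (abs_sub_round _)

theorem le_gap {V : Finset ℕ} (hV : V.Nonempty) {c : ℝ} (t : ℝ)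
    (h : ∀ v ∈ V, c ≤ |t * v - round (t * v)|) : c ≤ gap V := by
  refine le_trans ?_ (le_ciSup (bddA hV) t)
  have : Nonempty V := hV.to_subtype
  exact le_ciInf fun v => h v v.2

theorem le_nd {c y : ℝ} (n : ℤ) (h1 : c ≤ y - n) (h2 : y - n ≤ 1 - c) : c ≤ |y - round y| := by
  rcases le_or_gt (round y) n with h | h
  · have : ((round y : ℤ) : ℝ) ≤ n := by exact_mod_cast h
    exact le_trans (by linarith) (le_abs_self _)
  · have : (n : ℝ) + 1 ≤ ((round y : ℤ) : ℝ) := by exact_mod_cast h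
    exact le_trans (by linarith) (neg_le_abs _)

/-- **Theorem.** For all `n ≥ 2` and `a ≥ 1` there is a set `V` of `n` positive integers with
`κ(V) = 1 / 2` and `κ(a + V) = 1 / (n + 1)`. -/
theorem result : ∀ n a : ℕ, 2 ≤ n → 1 ≤ a →
    ∃ V : Finset ℕ, IsSpeeds n V ∧ gap V = 1 / 2 ∧ gap (translate a V) = 1 / ((n : ℝ) + 1) := by
  intro n a hn ha
  have haR : (0 : ℝ) < a := by exact_mod_cast (show 0 < a by omega)
  have hnR : (0 : ℝ) < n := by exact_mod_cast (show 0 < n by omega)
  set V : Finset ℕ := (Finset.range n).image (fun i => a * (2 * i + 1)) with hVdef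
  have hVne : V.Nonempty := (Finset.nonempty_range_iff.2 (by omega)).image _
  have hT : translate a V = (Finset.range n).image (fun i => 2 * a * (i + 1)) := by
    unfold translate
    rw [hVdef, Finset.image_image]
    refine Finset.image_congr fun i _ => ?_
    simp only [Function.comp_apply]
    ring
  have hTne : (translate a V).Nonempty := hVne.image _
  refine ⟨V, ⟨?_, fun v hv => ?_⟩, le_antisymm ?_ ?_, le_antisymm ?_ ?_⟩
  · rw [hVdef, Finset.card_image_of_injective, Finset.card_range]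
    intro x y hxy
    have h3 : 2 * x + 1 = 2 * y + 1 := Nat.eq_of_mul_eq_mul_left (by omega) hxy
    omega
  · obtain ⟨w, -, rfl⟩ := Finset.mem_image.1 hv
    exact Nat.mul_pos (by omega) (by omega)
  · obtain ⟨v, hv⟩ := hVne
    exact ciSup_le fun t => (inf_le t hv).trans (abs_sub_round _)
  · refine le_gap hVne (1 / (2 * a)) fun v hv => ?_
    obtain ⟨i, -, rfl⟩ := Finset.mem_image.1 hv
    have e : 1 / (2 * (a : ℝ)) * ((a * (2 * i + 1) : ℕ) : ℝ) = ((i : ℤ) : ℝ) + 1 / 2 := by
      push_cast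
      field_simp
    rw [e]
    refine le_nd (i : ℤ) ?_ ?_ <;> linarith
  · refine ciSup_le fun t => ?_
    obtain ⟨k, hk0, hkn, hk⟩ := Real.exists_nat_abs_mul_sub_round_le (t * (2 * a)) (n := n) (by omega)
    refine (inf_le t (v := 2 * a * k) ?_).trans ?_
    · rw [hT]
      refine Finset.mem_image.2 ⟨k - 1, Finset.mem_range.2 (by omega), ?_⟩
      have : k - 1 + 1 = k := by omega
      simp only [this]
    · have e : t * ((2 * a * k : ℕ) : ℝ) = (k : ℝ) * (t * (2 * a)) := by push_cast; ring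
      rw [e]
      exact hk
  · refine le_gap hTne (1 / (2 * a * (n + 1))) fun v hv => ?_
    rw [hT] at hv
    obtain ⟨i, hi, rfl⟩ := Finset.mem_image.1 hv
    have hi' : (i : ℝ) + 1 ≤ n := by exact_mod_cast Finset.mem_range.1 hi
    have e : 1 / (2 * (a : ℝ) * (n + 1)) * ((2 * a * (i + 1) : ℕ) : ℝ)
        = ((i : ℝ) + 1) / (n + 1) := by
      push_cast
      field_simp
    rw [e]
    have h0 : (0 : ℝ) ≤ i := Nat.cast_nonneg i
    refine le_nd 0 ?_ ?_
    · rw [Int.cast_zero, sub_zero]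
      exact div_le_div_of_nonneg_right (by linarith) (by linarith)
    · rw [Int.cast_zero, sub_zero, le_sub_iff_add_le, ← add_div, div_le_one (by linarith)]
      linarith

end Pool.Agent.Results.MP_64d5df_nt.GapDropsUnderTranslation
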